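import Pool.Agent.Q148.SM.Bas

set_option autoImplicit false

/-!
# Project SM (helper148): assembly
-/

namespace Pool.Agent.Q148.SM

open Finset

/-- the abstract theorem -/
def S_MAIN : Prop := ∀ (N : ℕ) (a : ℝ) (w : Fin N → ℂ) (p : ℂ → ℂ), Cfg N a w p →
  Real.exp 128600 < N → (N : ℝ) ≤ SS (dd a w)

lemma norm_sg_le {N : ℕ} (hN : 1 ≤ N) (d : Fin N → ℂ) (h : SS d < N) : ‖sg d‖ < N := by
  have hN0 : (0 : ℝ) < N := by exact_mod_cast hN
  have h1 : ‖sg d‖ ≤ ∑ k, ‖d k‖ := norm_sum_le _ _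
  have h2 : (∑ k, ‖d k‖) ^ 2 ≤ N * SS d := by
    have := Finset.sum_mul_sq_le_sq_mul_sq (univ : Finset (Fin N)) (fun _ => (1 : ℝ))
      (fun k => ‖d k‖)
    simpa [SS] using this
  have h3 : ‖sg d‖ ^ 2 < (N : ℝ) ^ 2 := by
    calc ‖sg d‖ ^ 2 ≤ (∑ k, ‖d k‖) ^ 2 := pow_le_pow_left₀ (norm_nonneg _) h1 2
      _ ≤ N * SS d := h2
      _ < N * N := mul_lt_mul_of_pos_left h hN0
      _ = (N : ℝ) ^ 2 := by ring
  exact lt_of_pow_lt_pow_left₀ 2 hN0.le h3

theorem main (hRAD : S_RAD) (hSA : S_SEGA) (hSB : S_SEGB) (hPHI : S_PHI) (hF : S_FACTS)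
    (hL : S_LEML) (h0 : S_CASE0) : S_MAIN := by
  intro N a w p hp hNbig
  by_contra hS
  push Not at hS
  have hN1000 : (1000 : ℝ) ≤ N := by
    have h1 := Real.add_one_le_exp (128600 : ℝ)
    linarith
  have hN1 : 1 ≤ N := by
    by_contra h
    have : N = 0 := by omega
    subst this
    norm_num at hN1000
  have hN0 : (0 : ℝ) < N := by linarith
  have hNK : 1000 ≤ N := by exact_mod_cast hN1000
  set d := dd a w with hd
  set s := ‖sg d‖ with hs
  obtain ⟨f1, f2, f3, f4, f5, f6⟩ := hF N a w p hN1 hp hS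
  have hsN : s < N := norm_sg_le hN1 d hS
  have hbig : 1600 * (N : ℝ) ≤ s ^ 2 := by
    by_contra h
    push Not at h
    have := h0 N a w p hN1 hp hS h
    linarith
  have hs0 : 0 < s := by
    have h1 : (0 : ℝ) < s ^ 2 := by nlinarith
    by_contra h
    have h2 : s = 0 := le_antisymm (not_lt.1 h) (norm_nonneg _)
    rw [h2] at h1
    norm_num at h1
  have hsg : sg d ≠ 0 := norm_pos_iff.1 hs0
  obtain ⟨I, hI, hIp⟩ := t_PRIM N a w p hp
  have hrad := hRAD N d I hN1 hI hS.le hbig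
  set A : ℂ := (starRingEnd ℂ) (sg d) / N with hA
  set c := cen w with hc
  set l := ell a w with hl
  have hexp : (1 : ℝ) ≤ Real.exp l := Real.one_le_exp f3
  by_cases hα : ‖c - ((a : ℂ) - A)‖ ≤ s / (2 * N)
  · -- target: the centroid
    have h1 : ‖((a : ℂ) - c) - A‖ ≤ s / (2 * N) := by
      have : ((a : ℂ) - c) - A = -(c - ((a : ℂ) - A)) := by ring
      rw [this, norm_neg]
      exact hα
    have h2 := hSA N d I ((a : ℂ) - c) hN1 hI hS.le hbig h1
    have h3 : 1 - 1 / 400 ≤ ‖sg d * I ((a : ℂ) - c)‖ := by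
      have e1 : (1 : ℂ) = sg d * I ((a : ℂ) - c) - (sg d * (I ((a : ℂ) - c) - I A)) -
          (sg d * I A - 1) := by ring
      have e2 : ‖(1 : ℂ)‖ ≤ ‖sg d * I ((a : ℂ) - c)‖ + ‖sg d * (I ((a : ℂ) - c) - I A)‖ +
          ‖sg d * I A - 1‖ := by
        nth_rewrite 1 [e1]
        refine (norm_sub_le _ _).trans (add_le_add (norm_sub_le _ _) le_rfl)
      rw [norm_one] at e2
      linarith
    have hpc : ‖p c‖ ≤ 1 := by
      refine (hp.hb c).trans ?_
      rw [Real.exp_le_one_iff]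
      have e1 : ((starRingEnd ℂ) c * cen w).re = ‖c‖ ^ 2 := by
        rw [← hc, ← Complex.normSq_eq_norm_sq, ← Complex.normSq_eq_conj_mul_self]
        simp
      rw [e1]
      have e2 : 0 ≤ ‖c‖ ^ 2 := by positivity
      nlinarith
    have hpc2 : ((N : ℝ) + 1) * Real.exp l * ‖I ((a : ℂ) - c)‖ ≤ 1 := by
      have := hIp ((a : ℂ) - c)
      rw [sub_sub_cancel] at this
      rw [← this]
      exact hpc
    rw [norm_mul] at h3
    set q := ‖I ((a : ℂ) - c)‖ with hq
    have hq0 : 0 ≤ q := norm_nonneg _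
    -- `(N+1) e^l (399/400) ≤ s`
    have h4 : ((N : ℝ) + 1) * Real.exp l * (399 / 400) ≤ s := by
      have e1 : (399 / 400 : ℝ) ≤ s * q := by linarith
      have e2 : 0 ≤ ((N : ℝ) + 1) * Real.exp l := by positivity
      calc ((N : ℝ) + 1) * Real.exp l * (399 / 400) ≤ ((N : ℝ) + 1) * Real.exp l * (s * q) :=
            mul_le_mul_of_nonneg_left e1 e2
        _ = (((N : ℝ) + 1) * Real.exp l * q) * s := by ring
        _ ≤ 1 * s := mul_le_mul_of_nonneg_right hpc2 hs0.le
        _ = s := one_mul s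
    have h5 : Real.exp l ≤ 400 / 399 := by
      have e1 : (N : ℝ) * (Real.exp l * (399 / 400)) ≤ N * 1 := by nlinarith [Real.exp_pos l]
      have e2 := le_of_mul_le_mul_left e1 hN0
      linarith
    have h6 : l ≤ 1 / 200 := by
      have := Real.add_one_le_exp l
      linarith
    have h7 : (399 / 400 : ℝ) * N ≤ s := by nlinarith
    -- the normalised numbers
    set al : ℂ := sg d / N with hal
    have hNc : (N : ℂ) ≠ 0 := by exact_mod_cast hN0.ne'
    have hal0 : al ≠ 0 := div_ne_zero hsg hNc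
    have hnal : ‖al‖ = s / N := by
      rw [hal, norm_div]
      congr 1
      simp
    have hal1 : ‖al‖ ≤ 1 := by
      rw [hnal, div_le_one hN0]
      exact hsN.le
    have hal2 : (399 / 400 : ℝ) ≤ ‖al‖ := by
      rw [hnal, le_div_iff₀ hN0]
      exact h7
    set η : Fin N → ℂ := fun k => d k / al - 1 with hη
    have hη1 : ∀ k, 1 + η k = d k / al := fun k => by rw [hη]; ring
    have hηs : ∑ k, η k = 0 := by
      rw [hη]
      simp only
      rw [Finset.sum_sub_distrib, ← Finset.sum_div]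
      have : ∑ k, d k = al * N := by
        rw [hal, div_mul_cancel₀ _ hNc]
        rfl
      rw [this, mul_div_cancel_left₀ _ hal0]
      simp
    have hy : ∀ k, 1 / 2 ≤ ‖d k‖ ^ 2 ∧ ‖d k‖ ^ 2 ≤ 2 := by
      intro k
      have hdk : d k ≠ 0 := by
        rw [hd]
        unfold dd
        exact one_div_ne_zero (hp.hne k)
      apply hPHI.2 _ (by positivity)
      have := f6 k
      linarith
    have hηlow : ∀ k, 1 / 2 ≤ ‖1 + η k‖ := by
      intro k
      rw [hη1, norm_div, le_div_iff₀ (norm_pos_iff.2 hal0)]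
      have e1 := (hy k).1
      have e2 : (1 / 2 : ℝ) ≤ ‖d k‖ := by nlinarith [norm_nonneg (d k)]
      nlinarith
    have hηup : ∀ k, ‖η k‖ ≤ 3 := by
      intro k
      have e1 : ‖1 + η k‖ ≤ 2 := by
        rw [hη1, norm_div, div_le_iff₀ (norm_pos_iff.2 hal0)]
        have e3 := (hy k).2
        have e4 : ‖d k‖ ≤ 3 / 2 := by nlinarith [norm_nonneg (d k)]
        linarith
      have e2 : η k = (1 + η k) - 1 := by ring
      rw [e2]
      refine (norm_sub_le _ _).trans ?_
      rw [norm_one]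
      linarith
    set Q : ℝ := (∑ k, ‖η k‖ ^ 2) / N with hQ
    have hQs : ∑ k, ‖η k‖ ^ 2 = N * Q := by
      rw [hQ, mul_div_cancel₀ _ hN0.ne']
    have hQ0 : 0 ≤ Q := by rw [hQ]; positivity
    -- `1 + Q = S / (N |al|²)`
    have hQ1 : (1 + Q) * ‖al‖ ^ 2 * N = SS d := by
      have e1 : ∀ k, ‖d k‖ ^ 2 = ‖al‖ ^ 2 * (1 + 2 * (η k).re + ‖η k‖ ^ 2) := by
        intro k
        have e2 : d k = al * (1 + η k) := by rw [hη1, mul_div_cancel₀ _ hal0]
        rw [e2, norm_mul, mul_pow]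
        congr 1
        rw [← Complex.normSq_eq_norm_sq, ← Complex.normSq_eq_norm_sq, Complex.normSq_apply,
          Complex.normSq_apply, Complex.add_re, Complex.add_im, Complex.one_re, Complex.one_im]
        ring
      have e3 : SS d = ∑ k, ‖al‖ ^ 2 * (1 + 2 * (η k).re + ‖η k‖ ^ 2) :=
        Finset.sum_congr rfl fun k _ => e1 k
      rw [e3, ← Finset.mul_sum, Finset.sum_add_distrib, Finset.sum_add_distrib, ← Finset.mul_sum,
        ← Complex.re_sum, hηs, hQs]
      simp
      ring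
    have hQlt : (1 + Q) * ‖al‖ ^ 2 < 1 := by
      have e1 : (1 + Q) * ‖al‖ ^ 2 * N < 1 * N := by rw [hQ1]; linarith
      exact lt_of_mul_lt_mul_right e1 hN0.le
    have hQ150 : Q ≤ 1 / 150 := by
      by_contra hcon
      push Not at hcon
      have e1 : (399 / 400 : ℝ) ^ 2 ≤ ‖al‖ ^ 2 := pow_le_pow_left₀ (by norm_num) hal2 2
      have e2 : (151 / 150 : ℝ) * (399 / 400) ^ 2 ≤ (1 + Q) * ‖al‖ ^ 2 :=
        mul_le_mul (by linarith) e1 (by positivity) (by linarith)
      norm_num at e2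
      linarith
    -- the function `J`
    have hJ : Prim (fun k => 1 + η k) (fun z => al * I (z / al)) := by
      refine ⟨by simp [hI.zero], fun z => ?_⟩
      have e1 : HasDerivAt (fun z : ℂ => z / al) (1 / al) z := (hasDerivAt_id z).div_const al
      have e2 := ((hI.der (z / al)).comp z e1).const_mul al
      refine e2.congr_deriv ?_
      have e3 : D (fun k => 1 + η k) z = D d (z / al) := by
        unfold D
        apply Finset.prod_congr rfl
        intro k _
        show 1 - z * (1 + η k) = 1 - z / al * d k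
        rw [hη1]
        ring
      rw [e3]
      field_simp
      rw [hd]
    have hzc : (∑ k, 1 / (1 + η k)) / (N : ℂ) = al * ((a : ℂ) - c) := by
      have e1 : ∀ k, 1 / (1 + η k) = al * ((a : ℂ) - w k) := by
        intro k
        rw [hη1, hd]
        unfold dd
        have := hp.hne k
        field_simp
      rw [Finset.sum_congr rfl (fun k _ => e1 k), ← Finset.mul_sum, Finset.sum_sub_distrib, hc]
      unfold cen
      simp only [Finset.sum_const, Finset.card_univ, Fintype.card_fin, nsmul_eq_mul]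
      field_simp
    have hfin := hL N η Q _ hNK hηs hηup hηlow hQs hQ150 hJ
    rw [hzc, mul_div_cancel_left₀ _ hal0] at hfin
    have h8 : 1 - Q / 4 ≤ ‖((N : ℂ) + 1) * (al * I ((a : ℂ) - c))‖ := by
      have e1 : (1 : ℂ) = ((N : ℂ) + 1) * (al * I ((a : ℂ) - c)) -
          (((N : ℂ) + 1) * (al * I ((a : ℂ) - c)) - 1) := by ring
      have e2 : ‖(1 : ℂ)‖ ≤ ‖((N : ℂ) + 1) * (al * I ((a : ℂ) - c))‖ +
          ‖((N : ℂ) + 1) * (al * I ((a : ℂ) - c)) - 1‖ := by
        nth_rewrite 1 [e1]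
        exact norm_sub_le _ _
      rw [norm_one] at e2
      linarith
    have h9 : ‖((N : ℂ) + 1) * (al * I ((a : ℂ) - c))‖ ≤ ‖al‖ := by
      rw [norm_mul, norm_mul]
      have e0 : ‖((N : ℂ) + 1)‖ = (N : ℝ) + 1 := by
        have : ((N : ℂ) + 1) = (((N : ℝ) + 1 : ℝ) : ℂ) := by push_cast; rfl
        rw [this, Complex.norm_real, Real.norm_of_nonneg (by positivity)]
      rw [e0]
      have e1 : ((N : ℝ) + 1) * q ≤ 1 := by
        have e2 : ((N : ℝ) + 1) * q ≤ ((N : ℝ) + 1) * Real.exp l * q := by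
          have e3 : 0 ≤ ((N : ℝ) + 1) * q := by positivity
          nlinarith
        linarith
      calc ((N : ℝ) + 1) * (‖al‖ * q) = (((N : ℝ) + 1) * q) * ‖al‖ := by ring
        _ ≤ 1 * ‖al‖ := mul_le_mul_of_nonneg_right e1 (norm_nonneg _)
        _ = ‖al‖ := one_mul _
    have h10 : 1 - Q / 4 ≤ ‖al‖ := h8.trans h9
    have h11 : (1 - Q / 4) ^ 2 ≤ ‖al‖ ^ 2 := pow_le_pow_left₀ (by linarith) h10 2
    have h12 : (1 + Q) * (1 - Q / 4) ^ 2 < 1 :=
      lt_of_le_of_lt (mul_le_mul_of_nonneg_left h11 (by linarith)) hQlt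
    nlinarith [mul_nonneg hQ0 hQ0, mul_nonneg (mul_nonneg hQ0 hQ0) hQ0]
  · -- target: the origin
    push Not at hα
    have h1 : s ^ 2 / (32 * N) ≤ l := by
      have e1 : s / (2 * N) ≤ Real.sqrt (8 * l / N) := hα.le.trans f4
      have e2 : (s / (2 * N)) ^ 2 ≤ 8 * l / N := by
        have e3 := pow_le_pow_left₀ (by positivity) e1 2
        rwa [Real.sq_sqrt (by positivity)] at e3
      have e4 : (s / (2 * N)) ^ 2 = s ^ 2 / (32 * N) * (8 / N) := by
        field_simp
        ring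
      have e5 : 8 * l / N = l * (8 / N) := by ring
      rw [e4, e5] at e2
      exact le_of_mul_le_mul_right e2 (by positivity)
    have h2 : ‖c‖ ≤ ‖(a : ℂ) - A‖ + Real.sqrt (8 * l / N) := by
      have e1 : c = ((a : ℂ) - A) + (c - ((a : ℂ) - A)) := by ring
      nth_rewrite 1 [e1]
      exact (norm_add_le _ _).trans (add_le_add le_rfl f4)
    have h3 := hSB N d I a l c hN1 hI hS.le hbig f3 f2 h2 h1 f5
    have h4 : 1 / 2 ≤ ‖sg d * I a‖ := by
      have e1 : (1 : ℂ) = sg d * I a - (sg d * (I a - I A)) - (sg d * I A - 1) := by ring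
      have e2 : ‖(1 : ℂ)‖ ≤ ‖sg d * I a‖ + ‖sg d * (I a - I A)‖ + ‖sg d * I A - 1‖ := by
        nth_rewrite 1 [e1]
        refine (norm_sub_le _ _).trans (add_le_add (norm_sub_le _ _) le_rfl)
      rw [norm_one] at e2
      linarith
    have h5 : ((N : ℝ) + 1) * Real.exp l * ‖I a‖ ≤ 1 := by
      have := hIp (a : ℂ)
      rw [sub_self] at this
      rw [← this]
      exact hp.h0.trans hp.ha1
    rw [norm_mul] at h4
    have h6 : ((N : ℝ) + 1) * Real.exp l * (1 / 2) ≤ s := by
      have e2 : 0 ≤ ((N : ℝ) + 1) * Real.exp l := by positivity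
      calc ((N : ℝ) + 1) * Real.exp l * (1 / 2) ≤ ((N : ℝ) + 1) * Real.exp l * (s * ‖I a‖) :=
            mul_le_mul_of_nonneg_left h4 e2
        _ = (((N : ℝ) + 1) * Real.exp l * ‖I a‖) * s := by ring
        _ ≤ 1 * s := mul_le_mul_of_nonneg_right h5 hs0.le
        _ = s := one_mul s
    have h7 : Real.exp l ≤ 2 := by
      have e1 : (N : ℝ) * (Real.exp l * (1 / 2)) ≤ N * 1 := by nlinarith [Real.exp_pos l]
      have e2 := le_of_mul_le_mul_left e1 hN0
      linarith
    have h8 : l ≤ 1 := by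
      have := Real.add_one_le_exp l
      linarith
    have h9 : (50 : ℝ) ≤ s ^ 2 / (32 * N) := by
      rw [le_div_iff₀ (by positivity)]
      linarith
    linarith

/-- the theorem in the form of the problem file -/
theorem final (hP : S_POLY) (hZ : S_ZERO) (hM : S_MAIN) (m : ℕ) (hm : Real.exp 128600 < m)
    (a : ℝ) (ha0 : 0 ≤ a) (ha1 : a ≤ 1) (z : Fin m → ℂ) (hz : ∀ j, ‖z j‖ ≤ 1) :
    ((a : ℂ) ∈ (Polynomial.derivative ((Polynomial.X - Polynomial.C (a : ℂ)) *
        ∏ j, (Polynomial.X - Polynomial.C (z j)))).roots) ∨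
      (m : ℝ) ≤ (((Polynomial.derivative ((Polynomial.X - Polynomial.C (a : ℂ)) *
        ∏ j, (Polynomial.X - Polynomial.C (z j)))).roots).map
          (fun w : ℂ => (‖w - (a : ℂ)‖ ^ 2)⁻¹)).sum := by
  have hm1 : 1 ≤ m := by
    by_contra h
    have : m = 0 := by omega
    subst this
    have := Real.exp_pos 128600
    norm_num at hm
    linarith
  by_cases h : (a : ℂ) ∈ (Polynomial.derivative ((Polynomial.X - Polynomial.C (a : ℂ)) *
        ∏ j, (Polynomial.X - Polynomial.C (z j)))).roots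
  · exact Or.inl h
  · right
    rcases ha0.eq_or_lt with h0 | h0
    · subst h0
      have := hZ m hm1 z hz _ rfl (by simpa using h)
      simpa using this
    · obtain ⟨w, hw, hc⟩ := hP m hm1 a h0 ha1 z hz _ rfl h
      have := hM m a w _ hc hm
      refine this.trans (le_of_eq ?_)
      rw [hw, Multiset.map_map]
      unfold SS dd
      apply Finset.sum_congr rfl
      intro k _
      simp only [Function.comp_apply]
      rw [norm_div, norm_one, norm_sub_rev, div_pow, one_pow, one_div]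

end Pool.Agent.Q148.SM
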