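import Pool.Agent.Q148.SM.Stm

set_option autoImplicit false

/-!
# Project SM (helper148): F5, LOGD, PRIM
-/

namespace Pool.Agent.Q148.SM

open Finset

theorem t_F5 : S_F5 := by
  intro N d t
  unfold D sg SS
  rw [norm_prod, ← Finset.prod_pow]
  have h1 : ∀ k, ‖1 - t * d k‖ ^ 2 ≤ Real.exp (-2 * (t * d k).re + ‖t‖ ^ 2 * ‖d k‖ ^ 2) := by
    intro k
    have h2 : ‖1 - t * d k‖ ^ 2 = 1 - 2 * (t * d k).re + ‖t‖ ^ 2 * ‖d k‖ ^ 2 := by
      have h3 : ‖t‖ ^ 2 * ‖d k‖ ^ 2 = ‖t * d k‖ ^ 2 := by rw [norm_mul, mul_pow]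
      rw [h3, ← Complex.normSq_eq_norm_sq, ← Complex.normSq_eq_norm_sq, Complex.normSq_apply,
        Complex.normSq_apply, Complex.sub_re, Complex.sub_im, Complex.one_re, Complex.one_im]
      ring
    rw [h2]
    have := Real.add_one_le_exp (-2 * (t * d k).re + ‖t‖ ^ 2 * ‖d k‖ ^ 2)
    linarith
  refine (Finset.prod_le_prod (fun k _ => by positivity) (fun k _ => h1 k)).trans ?_
  rw [← Real.exp_sum]
  apply le_of_eq
  congr 1
  rw [Finset.sum_add_distrib, ← Finset.mul_sum, ← Finset.mul_sum, Finset.mul_sum (a := t),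
    Complex.re_sum]

theorem t_LOGD : S_LOGD := by
  intro N d t h
  have h1 : ∀ k, ∃ e : ℂ, 1 - t * d k = Complex.exp (-(t * d k) + e) ∧
      ‖e‖ ≤ ‖t‖ ^ 2 * ‖d k‖ ^ 2 := by
    intro k
    have hx : ‖-(t * d k)‖ ≤ 1 / 2 := by
      rw [norm_neg, norm_mul]
      exact h k
    refine ⟨Complex.log (1 + -(t * d k)) - -(t * d k), ?_, ?_⟩
    · have h2 : -(t * d k) + (Complex.log (1 + -(t * d k)) - -(t * d k)) =
          Complex.log (1 + -(t * d k)) := by ring
      rw [h2, Complex.exp_log]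
      · ring
      · intro h0
        have h3 : t * d k = 1 := by linear_combination -h0
        rw [h3, norm_neg, norm_one] at hx
        norm_num at hx
    · have h3 := Complex.norm_log_one_add_sub_self_le (z := -(t * d k)) (by linarith)
      refine h3.trans ?_
      have h4 : ‖-(t * d k)‖ ^ 2 = ‖t‖ ^ 2 * ‖d k‖ ^ 2 := by
        rw [norm_neg, norm_mul, mul_pow]
      have h5 : (1 - ‖-(t * d k)‖)⁻¹ ≤ 2 := by
        rw [inv_le_comm₀ (by linarith) two_pos]
        linarith
      have h6 : 0 ≤ ‖-(t * d k)‖ ^ 2 := by positivity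
      have h7 := mul_le_mul_of_nonneg_left h5 h6
      rw [← h4]
      linarith
  choose e he1 he2 using h1
  refine ⟨∑ k, e k, ?_, ?_⟩
  · unfold D sg
    rw [Finset.prod_congr rfl (fun k _ => he1 k), ← Complex.exp_sum, Finset.sum_add_distrib,
      Finset.mul_sum, Finset.sum_neg_distrib]
  · unfold SS
    rw [Finset.mul_sum]
    exact (norm_sum_le _ _).trans (Finset.sum_le_sum fun k _ => he2 k)

theorem t_PRIM : S_PRIM := by
  intro N a w p hp
  set P1 : ℂ := ((N : ℂ) + 1) * ∏ k, ((a : ℂ) - w k) with hP1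
  have hN : ((N : ℂ) + 1) ≠ 0 := by exact_mod_cast Nat.succ_ne_zero N
  have hprod : ∏ k, ((a : ℂ) - w k) ≠ 0 := Finset.prod_ne_zero_iff.2 fun k _ => hp.hne k
  have hP0 : P1 ≠ 0 := mul_ne_zero hN hprod
  refine ⟨fun t => -p ((a : ℂ) - t) / P1, ⟨?_, ?_⟩, ?_⟩
  · simp [hp.hpa]
  · intro t
    have h1 : HasDerivAt (fun t : ℂ => (a : ℂ) - t) (-1) t := by
      exact (hasDerivAt_id t).const_sub (a : ℂ)
    have h2 := ((hp.der ((a : ℂ) - t)).comp t h1).neg.div_const P1
    refine h2.congr_deriv ?_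
    have h3 : D (dd a w) t * ∏ k, ((a : ℂ) - w k) = ∏ k, ((a : ℂ) - t - w k) := by
      unfold D dd
      rw [← Finset.prod_mul_distrib]
      apply Finset.prod_congr rfl
      intro k _
      have := hp.hne k
      field_simp
      ring
    rw [← h3, hP1]
    field_simp
  · intro t
    have h1 : ‖P1‖ = ((N : ℝ) + 1) * Real.exp (ell a w) := by
      rw [hP1, norm_mul, norm_prod]
      congr 1
      · have : ((N : ℂ) + 1) = (((N : ℝ) + 1 : ℝ) : ℂ) := by push_cast; rfl
        rw [this, Complex.norm_real, Real.norm_of_nonneg (by positivity)]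
      · unfold ell
        rw [Real.exp_sum]
        apply Finset.prod_congr rfl
        intro k _
        rw [Real.exp_log (norm_pos_iff.2 (hp.hne k))]
    have h2 : (0 : ℝ) < ‖P1‖ := norm_pos_iff.2 hP0
    simp only
    rw [← h1, norm_div, norm_neg, mul_div_cancel₀ _ h2.ne']

end Pool.Agent.Q148.SM
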