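import Mathlib

set_option autoImplicit false

/-!
# Project SM (helper148): the power mean of order `-2` of the distances to the critical points

THEOREM (row MP_f0bc87_an, hard; it contains Tao's theorem on the Sendov conjecture for large
degrees). There is `N₀` such that for all `N ≥ N₀`, `0 ≤ a ≤ 1` and `z_1, ..., z_N` in the closed
unit disc the critical points `w_1, ..., w_N` of `p = (X - a) ∏ (X - z_j)` satisfy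
`∑ |w_k - a|^(-2) ≥ N` (or `a` is a critical point).

Plan. Put `d_k = 1/(a - w_k)`, `σ = ∑ d_k`, `S = ∑ |d_k|²`, `U = ∏ |a - w_k|`, `D(t) = ∏ (1 - t d_k)`,
`I(t) = ∫_0^t D`, `c = (1/N) ∑ w_k` (the centroid). Then `|p(a - t)| = (N+1) U |I(t)|`. Suppose
`S < N`; then `U ≥ 1` and `|σ| < N` and `Re σ > a N / 2`. One has `|p(c)| ≤ 1` and `|p(0)| ≤ a`, while
`I(a - c)` resp. `I(a)` is about `1/σ`; this is a contradiction. Near the extremal case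
`p = z^n - 1` a second order estimate (`S_LEML`) is used.
-/

namespace Pool.Agent.Q148.SM

open Finset

noncomputable section

/-- `∏ (1 - t d_k)` -/
def D {N : ℕ} (d : Fin N → ℂ) (t : ℂ) : ℂ := ∏ k, (1 - t * d k)

/-- `σ = ∑ d_k` -/
def sg {N : ℕ} (d : Fin N → ℂ) : ℂ := ∑ k, d k

/-- `S = ∑ |d_k|²` -/
def SS {N : ℕ} (d : Fin N → ℂ) : ℝ := ∑ k, ‖d k‖ ^ 2

/-- `I` is the primitive of `D` which vanishes at `0` -/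
structure Prim {N : ℕ} (d : Fin N → ℂ) (I : ℂ → ℂ) : Prop where
  zero : I 0 = 0
  der : ∀ t, HasDerivAt I (D d t) t

/-- `d_k = 1/(a - w_k)` -/
def dd {N : ℕ} (a : ℝ) (w : Fin N → ℂ) (k : Fin N) : ℂ := 1 / ((a : ℂ) - w k)

/-- the centroid -/
def cen {N : ℕ} (w : Fin N → ℂ) : ℂ := (∑ k, w k) / N

/-- `log ∏ |a - w_k|` -/
def ell {N : ℕ} (a : ℝ) (w : Fin N → ℂ) : ℝ := ∑ k, Real.log ‖(a : ℂ) - w k‖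

/-- the configuration: `p` is a polynomial function with zeros in the closed unit disc, `p(a) = 0`,
`w` are its critical points -/
structure Cfg (N : ℕ) (a : ℝ) (w : Fin N → ℂ) (p : ℂ → ℂ) : Prop where
  ha : 0 < a
  ha1 : a ≤ 1
  hw : ∀ k, ‖w k‖ ≤ 1
  hne : ∀ k, (a : ℂ) - w k ≠ 0
  hpa : p a = 0
  der : ∀ b, HasDerivAt p (((N : ℂ) + 1) * ∏ k, (b - w k)) b
  h0 : ‖p 0‖ ≤ a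
  hb : ∀ b, ‖p b‖ ≤ Real.exp (((N : ℝ) + 1) / 2 *
    (‖b‖ ^ 2 - 2 * ((starRingEnd ℂ) b * cen w).re))

/-! ### the jobs -/

/-- POLY. Proof. `P = (X - a) ∏ (X - z_j)`, `P' ≠ 0` has degree `N` and splits over `ℂ`; write its
roots as `w : Fin N → ℂ` (`Multiset` of card `N`; e.g. `Multiset.toList` and `List.get`, or
`exists_fin_family`). `P' = (N+1) ∏ (X - w_k)` (leading coefficient `N + 1`).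
`‖w k‖ ≤ 1`: Gauss-Lucas, `Polynomial.rootSet_derivative_subset_convexHull_rootSet` and convexity of
the closed ball. `a - w k ≠ 0` because `a` is not a root of `P'`. `‖P(0)‖ = a ∏ ‖z_j‖ ≤ a`.
Centroid: `∑ w_k = (N/(N+1)) (a + ∑ z_j)` (coefficients of `X^N` of `P` and of `X^(N-1)` of `P'`,
`Polynomial.multiset_prod_X_sub_C_nextCoeff` or `Polynomial.sum_roots_eq_nextCoeff_of_monic_of_split`),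
hence `(a + ∑ z_j)/(N+1) = cen w`. `hb`: with `ζ_0 = a, ζ_j = z_j`:
`‖P(b)‖ = ∏ ‖b - ζ_j‖ ≤ ∏ exp ((‖b - ζ_j‖² - 1)/2)` (as `x ≤ exp ((x² - 1)/2)`, from
`x² ≤ exp (x² - 1)`), and `∑ (‖b - ζ_j‖² - 1) = (N+1) ‖b‖² - 2 Re (conj b ∑ ζ_j) + ∑ (‖ζ_j‖² - 1)
≤ (N+1) (‖b‖² - 2 Re (conj b cen w))`. -/
def S_POLY : Prop := ∀ (N : ℕ), 1 ≤ N → ∀ (a : ℝ), 0 < a → a ≤ 1 → ∀ z : Fin N → ℂ,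
  (∀ j, ‖z j‖ ≤ 1) → ∀ P : Polynomial ℂ,
  P = (Polynomial.X - Polynomial.C (a : ℂ)) * ∏ j, (Polynomial.X - Polynomial.C (z j)) →
  (a : ℂ) ∉ P.derivative.roots →
  ∃ w : Fin N → ℂ, P.derivative.roots = (univ : Finset (Fin N)).val.map w ∧
    Cfg N a w (fun b => P.eval b)

/-- ZERO (the case `a = 0`). Proof. `P'(0) = ∏ (-z_j)` has norm `≤ 1`, and `‖P'(0)‖ = (N+1) ∏ ‖w_k‖`.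
So `∏ ‖w_k‖ ≤ 1/(N+1) ≤ 1`; by AM-GM (`Real.inner_le_nnorm_mul_nnorm` not needed: use
`x⁻¹ ≥ 1 - log x`, i.e. `∑ ‖w_k‖⁻² ≥ ∑ (1 - log ‖w_k‖²) = N - 2 log ∏ ‖w_k‖ ≥ N`). -/
def S_ZERO : Prop := ∀ (N : ℕ), 1 ≤ N → ∀ z : Fin N → ℂ, (∀ j, ‖z j‖ ≤ 1) → ∀ P : Polynomial ℂ,
  P = (Polynomial.X - Polynomial.C (0 : ℂ)) * ∏ j, (Polynomial.X - Polynomial.C (z j)) →
  (0 : ℂ) ∉ P.derivative.roots →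
  (N : ℝ) ≤ ((P.derivative.roots).map (fun w : ℂ => (‖w - (0 : ℂ)‖ ^ 2)⁻¹)).sum

/-- F5. Proof. `‖1 - t d‖² = 1 - 2 Re (t d) + ‖t‖² ‖d‖² ≤ exp (- 2 Re (t d) + ‖t‖² ‖d‖²)`; product. -/
def S_F5 : Prop := ∀ (N : ℕ) (d : Fin N → ℂ) (t : ℂ),
  ‖D d t‖ ^ 2 ≤ Real.exp (-2 * (t * sg d).re + ‖t‖ ^ 2 * SS d)

/-- LOGD. Proof. `1 - x = exp (Complex.log (1 - x))` and
`‖log (1 - x) + x‖ ≤ ‖x‖² (1 - ‖x‖)⁻¹ / 2 ≤ ‖x‖²` for `‖x‖ ≤ 1/2`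
(`Complex.norm_log_one_add_sub_self_le` with `z = -x`); take the product, `x = t d_k`. -/
def S_LOGD : Prop := ∀ (N : ℕ) (d : Fin N → ℂ) (t : ℂ), (∀ k, ‖t‖ * ‖d k‖ ≤ 1 / 2) →
  ∃ E : ℂ, D d t = Complex.exp (-(t * sg d) + E) ∧ ‖E‖ ≤ ‖t‖ ^ 2 * SS d

/-- RAD. Proof. Put `s = ‖σ‖`, `e = conj σ / s`, so `σ e = s`, `40 √N ≤ s ≤ N` (the upper bound by
Cauchy-Schwarz), `R = s / N`, so `e R = conj σ / N`; `ρ = 1/(2 √N) ≤ R`. Put `G(r) = σ I(e r)`,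
`G'(r) = s D(e r)`, `G(0) = 0`. (1) For `0 ≤ r ≤ ρ`: all `‖e r‖ ‖d_k‖ ≤ 1/2` (`‖d_k‖ ≤ √S ≤ √N`),
so by LOGD `D(e r) = exp (- s r + E)`, `‖E‖ ≤ N r² ≤ 1/4`, and
`‖D(e r) - exp(-s r)‖ ≤ exp(-s r) (exp (N r²) - 1) ≤ (6/5) N r² exp(-s r)`. With
`H(r) = 1 - exp (-s r)` one gets `‖G(ρ) - H(ρ)‖ ≤ ∫_0^ρ s (6/5) N r² exp(-s r) dr ≤ (12/5) N / s²
≤ 12/(5*1600) = 0.0015` (as boundary function for `image_norm_le_of_norm_deriv_right_le_deriv_boundary`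
one can use `B(r) = (12/5) N / s² (1 - exp(-s r) (1 + s r + s² r²/2))`,
`B'(r) = (6/5) N s r² exp(-s r)`). `|H(ρ) - 1| = exp(-s ρ) ≤ exp(-20)`. (2) For `ρ ≤ r ≤ R` by F5:
`‖D(e r)‖ ≤ exp (- r s + r² N/2) ≤ exp (-r s/2)` because `r N ≤ s`. So
`‖G(R) - G(ρ)‖ ≤ ∫_ρ^R s exp(-r s/2) dr ≤ 2 exp (-ρ s/2) ≤ 2 exp(-10)`. Sum `≤ 1/500`. -/
def S_RAD : Prop := ∀ (N : ℕ) (d : Fin N → ℂ) (I : ℂ → ℂ), 1 ≤ N → Prim d I → SS d ≤ N →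
  1600 * (N : ℝ) ≤ ‖sg d‖ ^ 2 → ‖sg d * I ((starRingEnd ℂ) (sg d) / N) - 1‖ ≤ 1 / 500

/-- SEGA. Proof. `A = conj σ / N`. On the segment from `A` to `T` (which lies in the disc
`‖t - A‖ ≤ ‖σ‖/(2N)`): by F5 `‖D t‖² ≤ exp (-2 Re (tσ) + N ‖t‖²) = exp (-N (‖A‖² - ‖t - A‖²))
≤ exp (-(3/4) ‖σ‖²/N)`, so `‖σ‖ ‖I T - I A‖ ≤ ‖σ‖²/(2N) exp (-(3/8) ‖σ‖²/N) ≤ 1/2000` with
`x = ‖σ‖²/N ≥ 1600` (e.g. `exp (3x/8) ≥ (3x/8)²/2`). Mean value inequality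
`Convex.norm_image_sub_le_of_norm_hasDerivWithin_le`. -/
def S_SEGA : Prop := ∀ (N : ℕ) (d : Fin N → ℂ) (I : ℂ → ℂ) (T : ℂ), 1 ≤ N → Prim d I →
  SS d ≤ N → 1600 * (N : ℝ) ≤ ‖sg d‖ ^ 2 → ‖T - (starRingEnd ℂ) (sg d) / N‖ ≤ ‖sg d‖ / (2 * N) →
  ‖sg d * (I T - I ((starRingEnd ℂ) (sg d) / N))‖ ≤ 1 / 2000

/-- SEGB. Proof. `A = conj σ / N`, `α = ‖A‖ = ‖σ‖/N`, `ϱ = ‖a - A‖ ≤ α`. Segment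
`t = a - h`, `h = s (a - A)`, `0 ≤ s ≤ 1`, `‖h‖ = s ϱ`, `‖t - A‖ = (1 - s) ϱ = ϱ - ‖h‖`.
(A) `‖h‖ ≤ α/120`: by the hypothesis `hF9` `‖D t‖² ≤ exp (-2ℓ + N ‖h‖² + 2 N ‖h‖ ‖c‖)`,
`‖c‖ ≤ ϱ + √(8ℓ/N) ≤ α + √(8ℓ/N)` and `α ≤ √(32 ℓ/N)`; with `v = √(ℓ/N)`: `‖h‖ ≤ √32 v/120 ≤ v/21`,
`‖c‖ ≤ (√32 + √8) v ≤ 8.5 v`, so the exponent is `≤ -2ℓ + ℓ/441 + 17 ℓ/21 ≤ -ℓ`: `‖D t‖ ≤ exp(-ℓ/2)`.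
(B) `‖h‖ ≥ α/120`: `‖t - A‖ ≤ ϱ - α/120 ≤ (1 - 1/120) α`, by F5
`‖D t‖² ≤ exp (-N (α² - ‖t - A‖²)) ≤ exp (-N α² /61)` (`1 - (119/120)² ≥ 1/61`). In both cases
`‖D t‖ ≤ exp (-x/122)`... with `x = N α² = ‖σ‖²/N ≥ 1600`; note `ℓ ≥ x/32`, so (A) gives
`‖D t‖ ≤ exp (-x/64)`. Hence `‖σ‖ ‖I a - I A‖ ≤ ‖σ‖ ϱ exp (-x/122) ≤ x exp (-x/122) ≤ 1/10` for
`x ≥ 1600` (`x exp(-x/122)` is decreasing for `x ≥ 122`; `1600 exp(-13.1) < 0.01`). -/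
def S_SEGB : Prop := ∀ (N : ℕ) (d : Fin N → ℂ) (I : ℂ → ℂ) (a l : ℝ) (c : ℂ), 1 ≤ N → Prim d I →
  SS d ≤ N → 1600 * (N : ℝ) ≤ ‖sg d‖ ^ 2 → 0 ≤ l →
  ‖(a : ℂ) - (starRingEnd ℂ) (sg d) / N‖ ≤ ‖sg d‖ / N →
  ‖c‖ ≤ ‖(a : ℂ) - (starRingEnd ℂ) (sg d) / N‖ + Real.sqrt (8 * l / N) →
  ‖sg d‖ ^ 2 / (32 * N) ≤ l →
  (∀ h : ℂ, ‖D d ((a : ℂ) - h)‖ ^ 2 ≤
    Real.exp (-2 * l + N * ‖h‖ ^ 2 - 2 * N * ((starRingEnd ℂ) h * c).re)) →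
  ‖sg d * (I a - I ((starRingEnd ℂ) (sg d) / N))‖ ≤ 1 / 10

/-- PHI. Proof. For `y > 0` put `φ(y) = y - 1 - log y ≥ 0`. (i) `(y-1)²/y ≤ 4 φ(y)` for `y ≥ 1/4`:
the function `4 φ(y) - (y-1)²/y = 3 y - 2 - 1/y - 4 log y` has derivative `3 + 1/y² - 4/y =
(3 y - 1)(y - 1)/y²`, so it increases on `[1/4, 1/3]`, decreases on `[1/3, 1]`, increases on `[1, ∞)`,
it is `0` at `1` and `3/4 - 2 - 4 + 4 log 4 > 0` at `1/4`. (ii) `φ(y) ≤ 1/100` implies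
`1/2 ≤ y ≤ 2` (φ is decreasing on `(0,1]`, increasing on `[1,∞)`, `φ(1/2) = log 2 - 1/2 > 0.19`,
`φ(2) = 1 - log 2 > 0.3`). -/
def S_PHI : Prop := (∀ y : ℝ, 1 / 4 ≤ y → (y - 1) ^ 2 / y ≤ 4 * (y - 1 - Real.log y)) ∧
  (∀ y : ℝ, 0 < y → y - 1 - Real.log y ≤ 1 / 100 → 1 / 2 ≤ y ∧ y ≤ 2)

/-- FACTS for a configuration. Put `d = dd a w`, `ℓ = ell a w`, `A = conj σ / N`, `y_k = ‖d_k‖²`.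
Proofs. (1) `‖w‖ ≤ 1` means `2 a Re d ≥ 1 - (1 - a²) ‖d‖²` (as `w = a - 1/d`); sum: `2 a Re σ ≥
N - (1 - a²) S > a² N`. (2) `‖a - A‖² = a² - 2 a Re A + ‖A‖² < ‖A‖²`. (3) `∑ log y_k = - 2 ℓ`, so
`∑ φ(y_k) = S - N + 2 ℓ ≤ 2 ℓ`, in particular `0 ≤ ℓ`. (4) `y_k ≥ 1/4`;
`N (cen w - a) + conj σ = ∑ (a - w_k)(y_k - 1)` because `(a - w) y = conj d`; its norm is
`≤ ∑ |y_k - 1|/√y_k ≤ √(N ∑ (y-1)²/y) ≤ √(8 N ℓ)` by PHI (i) and (3).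
(5) `‖D(a - h)‖² = ∏ y_k ‖h - w_k‖² = exp(-2ℓ) ∏ ‖h - w_k‖² ≤ exp (-2ℓ + ∑ (‖h - w_k‖² - 1))`.
(6) is part of (3) for one `k`. -/
def S_FACTS : Prop := ∀ (N : ℕ) (a : ℝ) (w : Fin N → ℂ) (p : ℂ → ℂ), 1 ≤ N → Cfg N a w p →
  SS (dd a w) < N →
  a * N / 2 < (sg (dd a w)).re ∧
  ‖(a : ℂ) - (starRingEnd ℂ) (sg (dd a w)) / N‖ ≤ ‖sg (dd a w)‖ / N ∧
  0 ≤ ell a w ∧
  ‖cen w - ((a : ℂ) - (starRingEnd ℂ) (sg (dd a w)) / N)‖ ≤ Real.sqrt (8 * ell a w / N) ∧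
  (∀ h : ℂ, ‖D (dd a w) ((a : ℂ) - h)‖ ^ 2 ≤
    Real.exp (-2 * ell a w + N * ‖h‖ ^ 2 - 2 * N * ((starRingEnd ℂ) h * cen w).re)) ∧
  (∀ k, ‖dd a w k‖ ^ 2 - 1 - Real.log (‖dd a w k‖ ^ 2) ≤ 2 * ell a w)

/-- PRIM. Proof. `I(t) = - p(a - t) / P1`, `P1 = (N+1) ∏ (a - w_k)`; `I' = p'(a - t)/P1 =
∏ (a - t - w_k)/(a - w_k) = ∏ (1 - t d_k)`. Norm: `‖P1‖ = (N+1) exp ℓ`. -/
def S_PRIM : Prop := ∀ (N : ℕ) (a : ℝ) (w : Fin N → ℂ) (p : ℂ → ℂ), Cfg N a w p →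
  ∃ I : ℂ → ℂ, Prim (dd a w) I ∧
    ∀ t : ℂ, ‖p ((a : ℂ) - t)‖ = ((N : ℝ) + 1) * Real.exp (ell a w) * ‖I t‖

/-- LEMA (part of LEML, small `z`). Proof. `x = z/(1-z) ≤ 1/7`, `f(z)/(1-z)^N = ∏ (1 - x η_k)`,
`‖x η_k‖ ≤ 3/7 ≤ 1/2`; by LOGD (for `η`, `∑ η = 0`) it is `exp E`, `‖E‖ ≤ x² N Q`, so
`‖f - (1-z)^N‖ ≤ (1-z)^N N Q x² exp (N Q x²)`, `x² ≤ (64/49) z²`, `x² ≤ z/6`,
`(1-z)^N ≤ exp(-N z)`, `N Q x² ≤ N z/900`. -/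
def S_LEMA : Prop := ∀ (N : ℕ) (η : Fin N → ℂ) (Q : ℝ), 1 ≤ N → ∑ k, η k = 0 → (∀ k, ‖η k‖ ≤ 3) →
  ∑ k, ‖η k‖ ^ 2 = N * Q → Q ≤ 1 / 150 → ∀ z : ℝ, 0 ≤ z → z ≤ 1 / 8 →
  ‖D (fun k => 1 + η k) z - (1 - (z : ℂ)) ^ N‖ ≤
    4 / 3 * N * Q * z ^ 2 * Real.exp (-(9 / 10 * N * z))

/-- LEMB (part of LEML, large `z`). Proof. `F(s) = ∏ ((1 - z) - s z η_k)`, `F(0) = (1-z)^N`,
`F'(0) = - z (1-z)^(N-1) ∑ η_k = 0`,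
`F''(s) = z² ∑_{j ≠ k} η_j η_k ∏_{l ≠ j,k} ((1-z) - s z η_l)`, and each product of `N - 2` factors is
`≤ ((1-z) + z ∑‖η‖/(N-2))^(N-2) ≤ (1 - z + z N √Q/(N-2))^(N-2) ≤ (24/25)^(N-2)` (AM-GM,
`∑ ‖η‖ ≤ N √Q`, `√Q ≤ 0.0817`, `z ≥ 1/8`), so `‖F(1) - F(0)‖ ≤ (1/2) max ‖F''‖ ≤
(1/2) (∑ ‖η‖)² (24/25)^(N-2) ≤ (1/2) N² Q (24/25)^(N-2)`. (A constant factor more is allowed: the
statement has `N²` instead of `N²/2`. One can avoid second derivatives: telescoping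
`∏ (u - v_k) - u^N + u^(N-1) ∑ v_k` is a sum over pairs `j < k` of
`v_j v_k u^(N-1-k) ...∏_{l<j}(u - v_l)`...; then the products have `N - 2` factors, of which some
equal `u = 1 - z`; AM-GM as before.) -/
def S_LEMB : Prop := ∀ (N : ℕ) (η : Fin N → ℂ) (Q : ℝ), 1000 ≤ N → ∑ k, η k = 0 →
  (∀ k, ‖η k‖ ≤ 3) → ∑ k, ‖η k‖ ^ 2 = N * Q → Q ≤ 1 / 150 → ∀ z : ℝ, 1 / 8 ≤ z → z ≤ 1 →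
  ‖D (fun k => 1 + η k) z - (1 - (z : ℂ)) ^ N‖ ≤ (N : ℝ) ^ 2 * Q * (24 / 25) ^ (N - 2)

/-- LEML. Proof. `f = D (1 + η)`, `z_c = (1/N) ∑ 1/(1+η_k)`. `J(z_c) = ∫_0^1 f + ∫_1^{z_c} f`,
`(N+1) ∫_0^1 (1-z)^N dz = 1`. By LEMA `(N+1) ∫_0^{1/8} ‖f - (1-z)^N‖ ≤
(N+1) (4/3) N Q 2/(0.9 N)³ ≤ 4 Q/N`, by LEMB
`(N+1) ∫_{1/8}^1 ≤ (N+1) N² Q (24/25)^(N-2) ≤ Q/20` for `N ≥ 1000`. Last part: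
`z_c - 1 = (1/N) ∑ η²/(1+η)` so `‖z_c - 1‖ ≤ 2 Q`; on the segment `z = 1 + ζ`, `‖ζ‖ ≤ 2Q`:
`‖1 - z (1+η_k)‖ = ‖ζ + (1+ζ) η_k‖ ≤ 2Q + (1 + 2Q) ‖η_k‖`, the product is (AM-GM)
`≤ (2 Q + (1+2Q) √Q)^N ≤ (1/9)^N`, so the last part is `≤ (N+1) 2 Q (1/9)^N ≤ Q/20`.
Sum: `≤ 4 Q/1000 + Q/20 + Q/20 ≤ Q/4`. -/
def S_LEML : Prop := ∀ (N : ℕ) (η : Fin N → ℂ) (Q : ℝ) (J : ℂ → ℂ), 1000 ≤ N → ∑ k, η k = 0 →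
  (∀ k, ‖η k‖ ≤ 3) → (∀ k, 1 / 2 ≤ ‖1 + η k‖) → ∑ k, ‖η k‖ ^ 2 = N * Q → Q ≤ 1 / 150 →
  Prim (fun k => 1 + η k) J →
  ‖((N : ℂ) + 1) * J ((∑ k, 1 / (1 + η k)) / N) - 1‖ ≤ Q / 4

/-- CASE0. Proof. `s = ‖σ‖ < 40 √N`, `s > a N/2`, so `a < 2 s/N ≤ 80/√N`. Let
`t = min a (min (1/(4 s)) (1/(4 √N))) > 0`. For `0 ≤ r ≤ t` LOGD gives `D r = exp z`,
`‖z‖ ≤ 1/4 + 1/16`, so `‖D r - 1‖ ≤ exp(5/16) - 1 ≤ 2/5` and `‖I t‖ ≥ (3/5) t` (mean value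
inequality for `I r - r`). If `t = a`: `‖p 0‖ = (N+1) exp ℓ ‖I a‖ ≥ (N+1) (3/5) a > a`,
contradiction. Otherwise `t ≥ 1/(160 √N)`; `b = a - t ∈ (0, a)`:
`(N+1) exp(ℓ) (3/5)/(160 √N) ≤ ‖p b‖ ≤ exp ((N+1)/2 (b² + 2 b ‖c‖))`, `N + 1 ≤ 2 N`,
`b ≤ 80/√N`, `‖c‖ ≤ s/N + √(8ℓ/N) ≤ (40 + √8 √ℓ)/√N`: the exponent is
`≤ 6400 + 160 (40 + √8 √ℓ) ≤ 12800 + 453 √ℓ`. So `√N (3/800) ≤ exp (12800 + 453 √ℓ - ℓ) ≤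
exp (12800 + 453²/4) ≤ exp 64200`, `√N ≤ 267 exp 64200 ≤ exp 64300`. -/
def S_CASE0 : Prop := ∀ (N : ℕ) (a : ℝ) (w : Fin N → ℂ) (p : ℂ → ℂ), 1 ≤ N → Cfg N a w p →
  SS (dd a w) < N → ‖sg (dd a w)‖ ^ 2 < 1600 * N → (N : ℝ) ≤ Real.exp 128600

end

end Pool.Agent.Q148.SM
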